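import Pool.Agent.N728.QG.Def2

set_option autoImplicit false

/-! QH/H4P: slowly varying weights for `T ≤ K3 B`, primes: the shift and B4P. -/

namespace Pool.Agent.N568.QH

open Finset Pool.Agent.N728.QL Pool.Agent.N728.QG

noncomputable section

/-! ### the weights -/

lemma U0b_mono {C C' : ℝ} {k k' B D : ℕ} {W : ℕ → ℝ} (hC : C ≤ C') (hk : k ≤ k') (h : U0b C k B D W) :
    U0b C' k' B D W := by
  intro d1 d2 X1 X2 I1 I2 h1 h2 h3 h4 h5 h6 h7 h8 h9 h10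
  refine (h d1 d2 X1 X2 I1 I2 h1 h2 ((Nat.pow_le_pow_right h1 hk).trans h3)
    ((Nat.pow_le_pow_right h2 hk).trans h4) h5 h6 h7 h8 h9 h10).trans ?_
  have hX : (0 : ℝ) ≤ (X2 : ℝ) - X1 := by
    have : (X1 : ℝ) ≤ X2 := by exact_mod_cast h5
    linarith
  have hI : (0 : ℝ) ≤ (I2 : ℝ) - I1 := by
    have : (I1 : ℝ) ≤ I2 := by exact_mod_cast h8
    linarith
  apply div_le_div_of_nonneg_right _ (by positivity)
  apply mul_le_mul_of_nonneg_right hC (mul_nonneg hX hI)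

lemma U0b_add {C a : ℝ} {k B D : ℕ} {W W' : ℕ → ℝ} (ha : 0 ≤ a) (h : U0b C k B D W) (h' : U0b C k B D W') :
    U0b (a * (2 * C)) k B D (fun n => a * (W n + W' n)) := by
  intro d1 d2 X1 X2 I1 I2 h1 h2 h3 h4 h5 h6 h7 h8 h9 h10
  have a1 := h d1 d2 X1 X2 I1 I2 h1 h2 h3 h4 h5 h6 h7 h8 h9 h10
  have a2 := h' d1 d2 X1 X2 I1 I2 h1 h2 h3 h4 h5 h6 h7 h8 h9 h10
  simp only [← mul_sum, sum_add_distrib]
  have : a * (2 * C) * (((X2 : ℝ) - X1) * ((I2 : ℝ) - I1)) / ((Nat.totient d1 : ℝ) * Nat.totient d2) =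
      a * (C * (((X2 : ℝ) - X1) * ((I2 : ℝ) - I1)) / ((Nat.totient d1 : ℝ) * Nat.totient d2) +
      C * (((X2 : ℝ) - X1) * ((I2 : ℝ) - I1)) / ((Nat.totient d1 : ℝ) * Nat.totient d2)) := by ring
  rw [this]
  exact mul_le_mul_of_nonneg_left (add_le_add a1 a2) ha

lemma U1b_mono {C C' : ℝ} {k k' B D : ℕ} {W : ℕ → ℝ} (hC : C ≤ C') (hk : k ≤ k') (h : U1b C k B D W) :
    U1b C' k' B D W := by
  intro w y M X I1 I2 h1 h2 h3 h4 h5 h6 h7 h8 h9 h10
  have hy : 1 ≤ y := h1.trans h2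
  have hM : 1 ≤ M := Nat.pos_of_dvd_of_pos h5 (PP_pos w y)
  refine (h w y M X I1 I2 h1 h2 ((Nat.pow_le_pow_right hy hk).trans h3)
    ((Nat.pow_le_pow_right hM hk).trans h4) h5 h6 h7 h8 h9 h10).trans ?_
  have hI : (0 : ℝ) ≤ (I2 : ℝ) - I1 := by
    have : (I1 : ℝ) ≤ I2 := by exact_mod_cast h8
    linarith
  apply mul_le_mul_of_nonneg_right _ (mul_nonneg (Nat.cast_nonneg X) hI)
  apply mul_le_mul_of_nonneg_right _ (by positivity)
  apply mul_le_mul_of_nonneg_right hC (by positivity)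

lemma U1b_add {C a : ℝ} {k B D : ℕ} {W W' : ℕ → ℝ} (ha : 0 ≤ a) (h : U1b C k B D W) (h' : U1b C k B D W') :
    U1b (a * (2 * C)) k B D (fun n => a * (W n + W' n)) := by
  intro w y M X I1 I2 h1 h2 h3 h4 h5 h6 h7 h8 h9 h10
  have a1 := h w y M X I1 I2 h1 h2 h3 h4 h5 h6 h7 h8 h9 h10
  have a2 := h' w y M X I1 I2 h1 h2 h3 h4 h5 h6 h7 h8 h9 h10
  have e : ∑ x ∈ Icc 1 X, ∑ t ∈ Ioc I1 I2, rg w y x * rg w y t * (a * (W (M * x * t) + W' (M * x * t))) =
      a * (∑ x ∈ Icc 1 X, ∑ t ∈ Ioc I1 I2, rg w y x * rg w y t * W (M * x * t) +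
        ∑ x ∈ Icc 1 X, ∑ t ∈ Ioc I1 I2, rg w y x * rg w y t * W' (M * x * t)) := by
    rw [← sum_add_distrib, mul_sum]
    refine sum_congr rfl fun x _ => ?_
    rw [← sum_add_distrib, mul_sum]
    refine sum_congr rfl fun t _ => ?_
    ring
  rw [e]
  have : a * (2 * C) * ((M : ℝ) / Nat.totient M) * VW w y ^ 2 * ((X : ℝ) * ((I2 : ℝ) - I1)) =
      a * (C * ((M : ℝ) / Nat.totient M) * VW w y ^ 2 * ((X : ℝ) * ((I2 : ℝ) - I1)) +
      C * ((M : ℝ) / Nat.totient M) * VW w y ^ 2 * ((X : ℝ) * ((I2 : ℝ) - I1))) := by ring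
  rw [this]
  exact mul_le_mul_of_nonneg_left (add_le_add a1 a2) ha

lemma root_ex (k B : ℕ) (hk : 1 ≤ k) (hB : 1 ≤ B) : ∃ z1 : ℕ, z1 ^ k ≤ B ∧ B < (z1 + 1) ^ k := by
  classical
  refine ⟨Nat.findGreatest (fun n => n ^ k ≤ B) B, ?_, ?_⟩
  · exact Nat.findGreatest_spec (P := fun n => n ^ k ≤ B) (m := 1) hB (by simpa using hB)
  · by_contra hcon
    push Not at hcon
    have h1 : Nat.findGreatest (fun n => n ^ k ≤ B) B + 1 ≤ B := le_trans (Nat.le_self_pow (by omega) _) hcon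
    have h2 := Nat.le_findGreatest (P := fun n => n ^ k ≤ B) h1 hcon
    omega

/-- the box bound -/
lemma box {C : ℝ} {k B D : ℕ} {W E : ℕ → ℝ} (hB : 1 ≤ B) (hU : U0b C k B D W) (hE : ∀ n, |E n| ≤ W n)
    {X1 X2 I1 I2 : ℕ} (h1 : X1 ≤ X2) (h2 : B ≤ (X2 - X1) ^ D) (h3 : X2 ≤ B ^ D) (h4 : I1 ≤ I2)
    (h5 : B ≤ (I2 - I1) ^ D) (h6 : I2 ≤ B ^ D) :
    ∑ u ∈ Ioc X1 X2, ∑ v ∈ Ioc I1 I2, |E (u * v)| ≤ C * (((X2 : ℝ) - X1) * ((I2 : ℝ) - I1)) := by
  have h := hU 1 1 X1 X2 I1 I2 le_rfl le_rfl (by simpa using hB) (by simpa using hB) h1 h2 h3 h4 h5 h6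
  have e1 : (Ioc X1 X2).filter (fun u => 1 ∣ u) = Ioc X1 X2 := filter_true_of_mem fun u _ => one_dvd u
  have e2 : (Ioc I1 I2).filter (fun u => 1 ∣ u) = Ioc I1 I2 := filter_true_of_mem fun u _ => one_dvd u
  rw [e1, e2, Nat.totient_one, Nat.cast_one, mul_one, div_one] at h
  refine le_trans ?_ h
  exact sum_le_sum fun u _ => sum_le_sum fun v _ => hE _

lemma sum_Ioc_filter (p : ℕ → Prop) [DecidablePred p] (f : ℕ → ℝ) {a b : ℕ} (h : a ≤ b) :
    ∑ u ∈ (Ioc a b).filter p, f u = ∑ u ∈ (Icc 1 b).filter p, f u - ∑ u ∈ (Icc 1 a).filter p, f u := by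
  rw [sum_filter, sum_filter, sum_filter]
  have e : ∀ n : ℕ, Icc 1 n = Ioc 0 n := fun n => by
    ext x
    rw [mem_Icc, mem_Ioc]
    omega
  rw [e, e, ← sum_Ioc_consecutive _ (Nat.zero_le a) h]
  ring

/-! ### the weight as a function of a real variable -/

lemma step_lip (Gv : ℕ → ℝ) (Λ : ℝ) (h2 : ∀ v, |Gv (v + 1) - Gv v| ≤ Λ) (m n : ℕ) :
    |Gv (m + n) - Gv m| ≤ Λ * n := by
  induction n with
  | zero => simp
  | succ n ih =>
    have h := h2 (m + n)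
    have e : Gv (m + (n + 1)) - Gv m = (Gv (m + n + 1) - Gv (m + n)) + (Gv (m + n) - Gv m) := by
      rw [← add_assoc]; ring
    rw [e]
    refine (abs_add_le _ _).trans ?_
    push_cast
    linarith

lemma ext_real (Gv : ℕ → ℝ) (Λ : ℝ) (hΛ : 0 ≤ Λ) (h1 : ∀ v, |Gv v| ≤ 1) (h2 : ∀ v, |Gv (v + 1) - Gv v| ≤ Λ) :
    ∃ G : ℝ → ℝ, (∀ x, |G x| ≤ 1) ∧ (∀ x y, |G x - G y| ≤ Λ * |x - y|) ∧ ∀ n : ℕ, G n = Gv n := by
  have hL : LipschitzOnWith ⟨Λ, hΛ⟩ (fun x : ℝ => Gv ⌊x⌋₊) (Set.range (Nat.cast : ℕ → ℝ)) := by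
    apply LipschitzOnWith.of_dist_le_mul
    rintro _ ⟨m, rfl⟩ _ ⟨n, rfl⟩
    rw [Real.dist_eq, Real.dist_eq, Nat.floor_natCast, Nat.floor_natCast]
    show |Gv m - Gv n| ≤ Λ * |(m : ℝ) - n|
    rcases le_total m n with h | h
    · obtain ⟨d, rfl⟩ := Nat.exists_eq_add_of_le h
      have := step_lip Gv Λ h2 m d
      rw [abs_sub_comm]
      refine this.trans (le_of_eq ?_)
      push_cast
      rw [show (m : ℝ) - (m + d) = -d by ring, abs_neg, Nat.abs_cast]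
    · obtain ⟨d, rfl⟩ := Nat.exists_eq_add_of_le h
      have := step_lip Gv Λ h2 n d
      refine this.trans (le_of_eq ?_)
      push_cast
      rw [show ((n : ℝ) + d) - n = d by ring, Nat.abs_cast]
  obtain ⟨g, hg, hgE⟩ := hL.extend_real
  refine ⟨fun x => max (-1) (min 1 (g x)), ?_, ?_, ?_⟩
  · intro x
    rw [abs_le]
    exact ⟨le_max_left _ _, max_le (by norm_num) (min_le_left _ _)⟩
  · intro x y
    have h := hg.dist_le_mul x y
    rw [Real.dist_eq, Real.dist_eq] at h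
    change |g x - g y| ≤ Λ * |x - y| at h
    refine le_trans ?_ h
    have e1 : |max (-1) (min 1 (g x)) - max (-1) (min 1 (g y))| ≤ |min 1 (g x) - min 1 (g y)| := by
      have := abs_max_sub_max_le_max (-1 : ℝ) (min 1 (g x)) (-1) (min 1 (g y))
      refine this.trans ?_
      rw [sub_self, abs_zero]
      exact max_le (abs_nonneg _) le_rfl
    have e2 : |min 1 (g x) - min 1 (g y)| ≤ |g x - g y| := by
      have := abs_min_sub_min_le_max (1 : ℝ) (g x) 1 (g y)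
      refine this.trans ?_
      rw [sub_self, abs_zero]
      exact max_le (abs_nonneg _) le_rfl
    exact e1.trans e2
  · intro n
    have := hgE (Set.mem_range_self n)
    simp only [Nat.floor_natCast] at this
    show max (-1) (min 1 (g n)) = Gv n
    rw [← this]
    have h := abs_le.1 (h1 n)
    rw [min_eq_right h.2, max_eq_right h.1]

/-- the cut-off -/
def chi (a M : ℝ) (x : ℝ) : ℝ := max 0 (min 1 (min ((x - a) / a) ((M - x) / a)))

lemma chi_nonneg (a M x : ℝ) : 0 ≤ chi a M x := le_max_left _ _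
lemma chi_le_one (a M x : ℝ) : chi a M x ≤ 1 := max_le zero_le_one (min_le_left _ _)
lemma chi_zero1 {a M x : ℝ} (ha : 0 < a) (h : x ≤ a) : chi a M x = 0 := by
  unfold chi
  apply max_eq_left
  refine (min_le_right _ _).trans ((min_le_left _ _).trans ?_)
  exact div_nonpos_of_nonpos_of_nonneg (by linarith) ha.le
lemma chi_zero2 {a M x : ℝ} (ha : 0 < a) (h : M ≤ x) : chi a M x = 0 := by
  unfold chi
  apply max_eq_left
  refine (min_le_right _ _).trans ((min_le_right _ _).trans ?_)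
  exact div_nonpos_of_nonpos_of_nonneg (by linarith) ha.le
lemma chi_one {a M x : ℝ} (ha : 0 < a) (h1 : 2 * a ≤ x) (h2 : x ≤ M - a) : chi a M x = 1 := by
  unfold chi
  have e1 : 1 ≤ (x - a) / a := by rw [le_div_iff₀ ha]; linarith
  have e2 : 1 ≤ (M - x) / a := by rw [le_div_iff₀ ha]; linarith
  rw [min_eq_left (le_min e1 e2)]
  exact max_eq_right zero_le_one
lemma chi_lip {a : ℝ} (M x y : ℝ) (ha : 0 < a) : |chi a M x - chi a M y| ≤ 1 / a * |x - y| := by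
  unfold chi
  have e0 := abs_max_sub_max_le_max (0 : ℝ) (min 1 (min ((x - a) / a) ((M - x) / a))) 0
    (min 1 (min ((y - a) / a) ((M - y) / a)))
  rw [sub_self, abs_zero] at e0
  refine e0.trans (max_le (by positivity) ?_)
  have e1 := abs_min_sub_min_le_max (1 : ℝ) (min ((x - a) / a) ((M - x) / a)) 1
    (min ((y - a) / a) ((M - y) / a))
  rw [sub_self, abs_zero] at e1
  refine e1.trans (max_le (by positivity) ?_)
  have e2 := abs_min_sub_min_le_max ((x - a) / a) ((M - x) / a) ((y - a) / a) ((M - y) / a)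
  refine e2.trans (max_le ?_ ?_)
  · rw [show (x - a) / a - (y - a) / a = 1 / a * (x - y) by ring, abs_mul, abs_of_pos (by positivity : 0 < 1 / a)]
  · rw [show (M - x) / a - (M - y) / a = -(1 / a * (x - y)) by ring, abs_neg, abs_mul,
      abs_of_pos (by positivity : 0 < 1 / a)]

/-- the weight with the cut-offs -/
lemma cut_ex (Gv : ℕ → ℝ) (Λ a M : ℝ) (hΛ : 0 ≤ Λ) (ha : 0 < a) (h1 : ∀ v, |Gv v| ≤ 1)
    (h2 : ∀ v, |Gv (v + 1) - Gv v| ≤ Λ) :
    ∃ h : ℝ → ℝ, (∀ x, |h x| ≤ 1) ∧ (∀ x y, |h x - h y| ≤ (Λ + 1 / a) * |x - y|) ∧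
      (∀ x, x ≤ a → h x = 0) ∧ (∀ x, M ≤ x → h x = 0) ∧ (∀ n : ℕ, |Gv n - h n| ≤ 1) ∧
      (∀ n : ℕ, 2 * a ≤ n → (n : ℝ) ≤ M - a → h n = Gv n) := by
  obtain ⟨G, hG1, hG2, hG3⟩ := ext_real Gv Λ hΛ h1 h2
  refine ⟨fun x => chi a M x * G x, ?_, ?_, ?_, ?_, ?_, ?_⟩
  · intro x
    rw [abs_mul, abs_of_nonneg (chi_nonneg a M x)]
    exact mul_le_one₀ (chi_le_one a M x) (abs_nonneg _) (hG1 x)
  · intro x y
    have e : chi a M x * G x - chi a M y * G y = chi a M x * (G x - G y) + (chi a M x - chi a M y) * G y := by ring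
    show |chi a M x * G x - chi a M y * G y| ≤ _
    rw [e]
    refine (abs_add_le _ _).trans ?_
    rw [abs_mul, abs_mul, abs_of_nonneg (chi_nonneg a M x), add_mul]
    apply add_le_add
    · calc chi a M x * |G x - G y| ≤ 1 * |G x - G y| := mul_le_mul_of_nonneg_right (chi_le_one a M x) (abs_nonneg _)
        _ ≤ Λ * |x - y| := by rw [one_mul]; exact hG2 x y
    · calc |chi a M x - chi a M y| * |G y| ≤ |chi a M x - chi a M y| * 1 :=
            mul_le_mul_of_nonneg_left (hG1 y) (abs_nonneg _)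
        _ ≤ 1 / a * |x - y| := by rw [mul_one]; exact chi_lip M x y ha
  · intro x hx
    show chi a M x * G x = 0
    rw [chi_zero1 ha hx, zero_mul]
  · intro x hx
    show chi a M x * G x = 0
    rw [chi_zero2 ha hx, zero_mul]
  · intro n
    show |Gv n - chi a M n * G n| ≤ 1
    rw [hG3 n, show Gv n - chi a M n * Gv n = (1 - chi a M n) * Gv n by ring, abs_mul,
      abs_of_nonneg (by linarith [chi_le_one a M n])]
    exact mul_le_one₀ (by linarith [chi_nonneg a M n]) (abs_nonneg _) (h1 n)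
  · intro n hn1 hn2
    show chi a M n * G n = Gv n
    rw [chi_one ha hn1 hn2, one_mul, hG3]

lemma exp_lip {M a b : ℝ} (ha : Real.exp a ≤ M) (hb : Real.exp b ≤ M) :
    |Real.exp a - Real.exp b| ≤ M * |a - b| := by
  wlog h : a ≤ b generalizing a b
  · rw [abs_sub_comm, abs_sub_comm a b]
    exact this hb ha (le_of_not_ge h)
  have h1 : Real.exp a ≤ Real.exp b := Real.exp_le_exp.2 h
  rw [abs_of_nonpos (by linarith), abs_of_nonpos (by linarith)]
  have h2 : Real.exp a = Real.exp b * Real.exp (a - b) := by rw [← Real.exp_add]; ring_nf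
  have h3 : (a - b) + 1 ≤ Real.exp (a - b) := Real.add_one_le_exp _
  have h4 := Real.exp_pos b
  have h5 : -(Real.exp a - Real.exp b) = Real.exp b * (1 - Real.exp (a - b)) := by rw [h2]; ring
  rw [h5]
  calc Real.exp b * (1 - Real.exp (a - b)) ≤ Real.exp b * (b - a) := mul_le_mul_of_nonneg_left (by linarith) h4.le
    _ ≤ M * (b - a) := mul_le_mul_of_nonneg_right hb (by linarith)
    _ = M * -(a - b) := by ring

lemma log_lip {h : ℝ → ℝ} {Λ M : ℝ} (hΛ : 0 ≤ Λ) (hM : 0 < M) (h1 : ∀ x y, |h x - h y| ≤ Λ * |x - y|)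
    (h2 : ∀ x, M ≤ x → h x = 0) (s s' : ℝ) :
    |h (Real.exp s) - h (Real.exp s')| ≤ Λ * M * |s - s'| := by
  have key : ∀ t : ℝ, h (Real.exp t) = h (Real.exp (min t (Real.log M))) := by
    intro t
    rcases le_total t (Real.log M) with ht | ht
    · rw [min_eq_left ht]
    · rw [min_eq_right ht, Real.exp_log hM, h2 M le_rfl]
      apply h2
      rw [← Real.log_le_iff_le_exp hM]
      exact ht
  have hle : ∀ t : ℝ, Real.exp (min t (Real.log M)) ≤ M := by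
    intro t
    rw [← Real.le_log_iff_exp_le hM]
    exact min_le_right _ _
  rw [key s, key s']
  refine (h1 _ _).trans ?_
  rw [mul_assoc]
  apply mul_le_mul_of_nonneg_left _ hΛ
  refine (exp_lip (hle s) (hle s')).trans ?_
  apply mul_le_mul_of_nonneg_left _ hM.le
  have := abs_min_sub_min_le_max s (Real.log M) s' (Real.log M)
  rw [sub_self, abs_zero] at this
  exact this.trans (max_le le_rfl (abs_nonneg _))

/-! ### large `B` -/

lemma ev_log (M : ℝ) : ∀ᶠ B : ℕ in Filter.atTop, M ≤ Real.log B :=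
  (Real.tendsto_log_atTop.comp tendsto_natCast_atTop_atTop).eventually_ge_atTop M

lemma ev_T (M : ℝ) (N D : ℕ) (hM : 0 ≤ M) (hD : 1 ≤ D) :
    ∀ᶠ B : ℕ in Filter.atTop, ∀ T : ℕ, B ≤ T ^ D → M * Real.log B ^ N ≤ T := by
  have h1 : Filter.Tendsto (fun x : ℝ => Real.log x ^ (N * D) / x) Filter.atTop (nhds 0) :=
    Real.isLittleO_pow_log_id_atTop.tendsto_div_nhds_zero
  have h3 := ((h1.comp tendsto_natCast_atTop_atTop).eventually
    (gt_mem_nhds (show (0 : ℝ) < 1 / (M ^ D + 1) by positivity)))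
  filter_upwards [h3, Filter.eventually_ge_atTop 1] with B h4 hB T hT
  have hB1 : (0 : ℝ) < B := by exact_mod_cast hB
  simp only [Function.comp] at h4
  rw [div_lt_div_iff₀ hB1 (by positivity)] at h4
  have hlog : 0 ≤ Real.log (B : ℝ) := Real.log_nonneg (by exact_mod_cast hB)
  have h5 : (M * Real.log B ^ N) ^ D ≤ (T : ℝ) ^ D := by
    rw [mul_pow, ← pow_mul]
    have h6 : (B : ℝ) ≤ (T : ℝ) ^ D := by exact_mod_cast hT
    have h7 : 0 ≤ Real.log (B : ℝ) ^ (N * D) := by positivity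
    nlinarith
  exact le_of_pow_le_pow_left₀ (by omega) (Nat.cast_nonneg T) h5

/-- the exponent `R` -/
lemma R_ex {ρ X : ℝ} (h1 : 1 < ρ) (h2 : ρ ≤ 2) (hX : 1 ≤ X) : ∃ R : ℕ, ρ ^ R ≤ X ∧ X ≤ 2 * ρ ^ R := by
  have hl : 0 < Real.log ρ := Real.log_pos h1
  have hρ : 0 < ρ := by linarith
  have hX0 : 0 < X := by linarith
  have h0 : 0 ≤ Real.log X / Real.log ρ := div_nonneg (Real.log_nonneg hX) hl.le
  refine ⟨⌊Real.log X / Real.log ρ⌋₊, ?_, ?_⟩
  · have := Nat.floor_le h0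
    rw [le_div_iff₀ hl] at this
    rw [← Real.log_le_log_iff (by positivity) hX0, Real.log_pow]
    exact this
  · have := Nat.lt_floor_add_one (Real.log X / Real.log ρ)
    rw [div_lt_iff₀ hl] at this
    have h3 : X ≤ ρ ^ (⌊Real.log X / Real.log ρ⌋₊ + 1) := by
      rw [← Real.log_le_log_iff hX0 (by positivity), Real.log_pow]
      push_cast
      exact this.le
    rw [pow_succ] at h3
    have : 0 < ρ ^ ⌊Real.log X / Real.log ρ⌋₊ := by positivity
    nlinarith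

/-! ### the comparison of `EP` at `B` and at `B'` -/

lemma EP_bd {c : ℤ} {z B : ℕ} (hB2 : 2 ≤ B) (hc : c.natAbs ≤ B) (n : ℕ) :
    |EP c z B n| ≤ 4 * Real.log B + (VW 0 z)⁻¹ := by
  have hBr : (2 : ℝ) ≤ B := by exact_mod_cast hB2
  have hL : 0 ≤ Real.log (B : ℝ) := Real.log_nonneg (by linarith)
  have hV : 0 ≤ (VW 0 z)⁻¹ := inv_nonneg.2 (VW_pos 0 z).le
  unfold EP
  split_ifs with h
  · unfold EE
    refine (abs_sub _ _).trans ?_
    apply add_le_add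
    · unfold Pool.Agent.N728.QL.lp
      split_ifs with hp
      · have hm0 : 0 < (n : ℤ) + c := by
          by_contra hcon
          have : ((n : ℤ) + c).toNat = 0 := by omega
          rw [this] at hp
          exact Nat.not_prime_zero hp
        have h1 : (n : ℤ) + c ≤ (B : ℤ) ^ 4 := by
          have h2 : (n : ℤ) ≤ (B : ℤ) ^ 3 := by exact_mod_cast h.2
          have h3 : c ≤ B := by omega
          have h4 : (B : ℤ) ≤ (B : ℤ) ^ 3 := by
            have : B ≤ B ^ 3 := Nat.le_self_pow (by norm_num) B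
            exact_mod_cast this
          have h5 : (B : ℤ) ^ 3 * 2 ≤ (B : ℤ) ^ 3 * B :=
            mul_le_mul_of_nonneg_left (by exact_mod_cast hB2) (by positivity)
          have h6 : (B : ℤ) ^ 4 = (B : ℤ) ^ 3 * B := by ring
          omega
        have h1r : (((n : ℤ) + c : ℤ) : ℝ) ≤ (B : ℝ) ^ 4 := by exact_mod_cast h1
        have hm1 : (1 : ℝ) ≤ (((n : ℤ) + c : ℤ) : ℝ) := by exact_mod_cast hm0
        rw [abs_of_nonneg (Real.log_nonneg hm1)]
        have := Real.log_le_log (by linarith) h1r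
        rw [Real.log_pow] at this
        exact_mod_cast this
      · rw [abs_zero]
        linarith
    · rw [abs_of_nonneg (lz_nonneg _ _)]
      exact lz_le _ _
  · rw [abs_zero]
    linarith

lemma EP_eq {c : ℤ} {z B B' n : ℕ} (hBB : B ≤ B') (h1 : B' ≤ 2 * n) (h2 : n ≤ B ^ 3) :
    EP c z B n = EP c z B' n := by
  unfold EP
  rw [if_pos ⟨hBB.trans h1, h2⟩, if_pos ⟨h1, h2.trans (Nat.pow_le_pow_left hBB 3)⟩]

/-- the total difference -/
lemma EP_diff {c : ℤ} {z B B' U1 U2 N u0 v0 q : ℕ} {P δ KB : ℝ} {h : ℝ → ℝ} (hB2 : 2 ≤ B) (hc : c.natAbs ≤ B)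
    (hBB : B ≤ B') (hP : 0 < P) (hδ : 0 < δ) (hB'P : (B' : ℝ) ≤ B * P) (h1 : ∀ x, |h x| ≤ 1)
    (h2 : ∀ x, x ≤ δ * B → h x = 0) (h3 : ∀ x, KB ≤ x → h x = 0) (h4 : (U2 : ℝ) * (KB * P) ≤ (B : ℝ) ^ 3) :
    |∑ u ∈ (Ioc U1 U2).filter (fun u => u ≡ u0 [MOD q]), ∑ v ∈ (Icc 1 N).filter (fun v => v ≡ v0 [MOD q]),
        h (v / P) * EP c z B (u * v) -
      ∑ u ∈ (Ioc U1 U2).filter (fun u => u ≡ u0 [MOD q]), ∑ v ∈ (Icc 1 N).filter (fun v => v ≡ v0 [MOD q]),
        h (v / P) * EP c z B' (u * v)| ≤ 1 / δ * B' * (4 * Real.log B + (VW 0 z)⁻¹) := by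
  classical
  have hBr : (2 : ℝ) ≤ B := by exact_mod_cast hB2
  have hV0 : 0 ≤ 4 * Real.log B + (VW 0 z)⁻¹ := (abs_nonneg _).trans (EP_bd hB2 hc 0)
  obtain ⟨V, hV⟩ : ∃ V, V = 4 * Real.log B + (VW 0 z)⁻¹ := ⟨_, rfl⟩
  rw [← hV] at hV0 ⊢
  set Q : Finset (ℕ × ℕ) := Icc 1 ⌊1 / δ⌋₊ ×ˢ Icc 1 B' with hQ
  set S1 := (Ioc U1 U2).filter (fun u => u ≡ u0 [MOD q]) with hS1
  set S2 := (Icc 1 N).filter (fun v => v ≡ v0 [MOD q]) with hS2
  have key : ∀ x ∈ S1 ×ˢ S2, |h (x.2 / P) * EP c z B (x.1 * x.2) - h (x.2 / P) * EP c z B' (x.1 * x.2)| ≤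
      if x ∈ Q then V else 0 := by
    rintro ⟨u, v⟩ hx
    rw [mem_product, hS1, hS2, mem_filter, mem_filter, mem_Ioc, mem_Icc] at hx
    obtain ⟨⟨⟨hu1, hu2⟩, -⟩, ⟨hv1, -⟩, -⟩ := hx
    dsimp only at hu1 hu2 hv1 ⊢
    have hu : 1 ≤ u := by omega
    rw [← mul_sub, abs_mul]
    by_cases hz : h (v / P) = 0
    · rw [hz, abs_zero, zero_mul]
      split_ifs <;> linarith
    · have hva : δ * B < v / P := by
        by_contra hcon
        exact hz (h2 _ (not_lt.1 hcon))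
      have hvb : (v : ℝ) / P < KB := by
        by_contra hcon
        exact hz (h3 _ (not_lt.1 hcon))
      rw [lt_div_iff₀ hP] at hva
      rw [div_lt_iff₀ hP] at hvb
      have hn : u * v ≤ B ^ 3 := by
        have h5 : ((u : ℝ) * v) ≤ (B : ℝ) ^ 3 := by
          refine le_trans ?_ h4
          apply mul_le_mul (by exact_mod_cast hu2) hvb.le (by positivity) (by positivity)
        exact_mod_cast h5
      by_cases hlow : B' ≤ 2 * (u * v)
      · rw [EP_eq hBB hlow hn, sub_self, abs_zero, mul_zero]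
        split_ifs <;> linarith
      · have hz' : EP c z B' (u * v) = 0 := by
          unfold EP
          rw [if_neg]
          intro h6
          exact hlow h6.1
        have hQm : (u, v) ∈ Q := by
          rw [hQ, mem_product, mem_Icc, mem_Icc]
          push Not at hlow
          have h5 : v ≤ u * v := Nat.le_mul_of_pos_left v hu
          refine ⟨⟨hu, ?_⟩, hv1, ?_⟩
          · apply Nat.le_floor
            dsimp only
            rw [le_div_iff₀ hδ]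
            have h6 : 2 * ((u : ℝ) * v) < B' := by exact_mod_cast hlow
            have h7 : δ * B * P < v := hva
            have h8 : (0 : ℝ) < u := by exact_mod_cast hu
            have hBP : 0 < (B : ℝ) * P := by positivity
            have h9 : (u : ℝ) * (δ * B * P) < u * v := mul_lt_mul_of_pos_left h7 h8
            have h10 : (u : ℝ) * δ * (B * P) < 1 * (B * P) := by
              calc (u : ℝ) * δ * (B * P) = u * (δ * B * P) := by ring
                _ < u * v := h9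
                _ ≤ 2 * (u * v) := by
                    have : (0 : ℝ) ≤ u * v := by positivity
                    linarith
                _ ≤ B' := h6.le
                _ ≤ 1 * (B * P) := by linarith
            exact (lt_of_mul_lt_mul_right h10 hBP.le).le
          · dsimp only
            omega
        rw [if_pos hQm, hz', sub_zero]
        calc |h (v / P)| * |EP c z B (u * v)| ≤ 1 * |EP c z B (u * v)| :=
              mul_le_mul_of_nonneg_right (h1 _) (abs_nonneg _)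
          _ ≤ V := by rw [one_mul, hV]; exact EP_bd hB2 hc _
  rw [← sum_product', ← sum_product', ← sum_sub_distrib]
  refine (abs_sum_le_sum_abs _ _).trans ((sum_le_sum key).trans ?_)
  rw [sum_ite_mem, sum_const, nsmul_eq_mul]
  have hcard : ((((S1 ×ˢ S2) ∩ Q).card : ℕ) : ℝ) ≤ 1 / δ * B' := by
    have h5 : ((S1 ×ˢ S2) ∩ Q).card ≤ Q.card := card_le_card inter_subset_right
    have h6 : Q.card = ⌊1 / δ⌋₊ * B' := by
      rw [hQ, card_product, Nat.card_Icc, Nat.card_Icc]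
      simp
    rw [h6] at h5
    have h7 : (⌊1 / δ⌋₊ : ℝ) ≤ 1 / δ := Nat.floor_le (by positivity)
    calc ((((S1 ×ˢ S2) ∩ Q).card : ℕ) : ℝ) ≤ ((⌊1 / δ⌋₊ * B' : ℕ) : ℝ) := by exact_mod_cast h5
      _ = (⌊1 / δ⌋₊ : ℝ) * B' := by push_cast; ring
      _ ≤ 1 / δ * B' := mul_le_mul_of_nonneg_right h7 (Nat.cast_nonneg _)
  exact mul_le_mul_of_nonneg_right hcard hV0

/-! ### partial sums -/

lemma part_bd {E φ : ℕ → ℝ} {S1 S2 T1 T2 : Finset ℕ} (hS1 : S1 ⊆ T1) (hS2 : S2 ⊆ T2) (hφ : ∀ v, |φ v| ≤ 1) :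
    |∑ u ∈ S1, ∑ v ∈ S2, φ v * E (u * v)| ≤ ∑ u ∈ T1, ∑ v ∈ T2, |E (u * v)| := by
  refine (abs_sum_le_sum_abs _ _).trans ?_
  refine (sum_le_sum fun u _ => abs_sum_le_sum_abs _ _).trans ?_
  have h1 : ∀ u ∈ S1, ∑ v ∈ S2, |φ v * E (u * v)| ≤ ∑ v ∈ T2, |E (u * v)| := by
    intro u _
    refine le_trans (sum_le_sum fun v _ => ?_) (sum_le_sum_of_subset_of_nonneg hS2 fun v _ _ => abs_nonneg _)
    rw [abs_mul]
    exact mul_le_of_le_one_left (abs_nonneg _) (hφ v)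
  refine (sum_le_sum h1).trans ?_
  exact sum_le_sum_of_subset_of_nonneg hS1 fun u _ _ => sum_nonneg fun v _ => abs_nonneg _

lemma cut_err {E ψ : ℕ → ℝ} {S1 T1 S2 : Finset ℕ} (I J : Finset ℕ) (hS1 : S1 ⊆ T1) (hψ : ∀ v, |ψ v| ≤ 1)
    (h0 : ∀ v ∈ S2, v ∉ I → v ∉ J → ψ v = 0) :
    |∑ u ∈ S1, ∑ v ∈ S2, ψ v * E (u * v)| ≤
      ∑ u ∈ T1, ∑ v ∈ I, |E (u * v)| + ∑ u ∈ T1, ∑ v ∈ J, |E (u * v)| := by
  classical
  refine (abs_sum_le_sum_abs _ _).trans ?_
  refine (sum_le_sum fun u _ => abs_sum_le_sum_abs _ _).trans ?_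
  have h1 : ∀ u ∈ S1, ∑ v ∈ S2, |ψ v * E (u * v)| ≤ ∑ v ∈ I, |E (u * v)| + ∑ v ∈ J, |E (u * v)| := by
    intro u _
    have h2 : ∀ v ∈ S2, |ψ v * E (u * v)| ≤
        (if v ∈ I then |E (u * v)| else 0) + (if v ∈ J then |E (u * v)| else 0) := by
      intro v hv
      have hE := abs_nonneg (E (u * v))
      have hm : |ψ v * E (u * v)| ≤ |E (u * v)| := by
        rw [abs_mul]
        exact mul_le_of_le_one_left hE (hψ v)
      by_cases hI : v ∈ I
      · rw [if_pos hI]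
        split_ifs <;> linarith
      · by_cases hJ : v ∈ J
        · rw [if_pos hJ, if_neg hI]
          linarith
        · rw [if_neg hI, if_neg hJ, h0 v hv hI hJ, zero_mul, abs_zero, add_zero]
    refine (sum_le_sum h2).trans ?_
    rw [sum_add_distrib, sum_ite_mem, sum_ite_mem]
    apply add_le_add
    · exact sum_le_sum_of_subset_of_nonneg inter_subset_right fun v _ _ => abs_nonneg _
    · exact sum_le_sum_of_subset_of_nonneg inter_subset_right fun v _ _ => abs_nonneg _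
  refine (sum_le_sum h1).trans ?_
  rw [sum_add_distrib]
  apply add_le_add
  · exact sum_le_sum_of_subset_of_nonneg hS1 fun u _ _ => sum_nonneg fun v _ => abs_nonneg _
  · exact sum_le_sum_of_subset_of_nonneg hS1 fun u _ _ => sum_nonneg fun v _ => abs_nonneg _

/-- the two sums after the shift, the range of `v` extended -/
lemma shift_eq {E : ℕ → ℝ} {q u0 v0 U1' U2' N N' : ℕ} {P : ℝ} {h : ℝ → ℝ} (hU : U1' ≤ U2') (hN : N ≤ N')
    (h0 : ∀ v : ℕ, N < v → h (v / P) = 0) :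
    ∑ u ∈ (Icc 1 U2').filter (fun u => u ≡ u0 [MOD q]), ∑ v ∈ (Icc 1 N).filter (fun v => v ≡ v0 [MOD q]),
        h (v / P) * E (u * v) -
      ∑ u ∈ (Icc 1 U1').filter (fun u => u ≡ u0 [MOD q]), ∑ v ∈ (Icc 1 N).filter (fun v => v ≡ v0 [MOD q]),
        h (v / P) * E (u * v) =
    ∑ u ∈ (Ioc U1' U2').filter (fun u => u ≡ u0 [MOD q]), ∑ v ∈ (Icc 1 N').filter (fun v => v ≡ v0 [MOD q]),
        h (v / P) * E (u * v) := by
  rw [← sum_Ioc_filter (fun u => u ≡ u0 [MOD q])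
    (fun u => ∑ v ∈ (Icc 1 N).filter (fun v => v ≡ v0 [MOD q]), h (v / P) * E (u * v)) hU]
  refine sum_congr rfl fun u _ => ?_
  apply sum_subset
  · intro v hv
    rw [mem_filter, mem_Icc] at hv ⊢
    exact ⟨⟨hv.1.1, hv.1.2.trans hN⟩, hv.2⟩
  · intro v hv hv'
    rw [mem_filter, mem_Icc] at hv
    rw [mem_filter, mem_Icc] at hv'
    rw [h0 v, zero_mul]
    by_contra hcon
    exact hv' ⟨⟨hv.1.1, by omega⟩, hv.2⟩

/-! ### the ranges -/

lemma half_floor {x : ℝ} (hx : 2 ≤ x) : x / 2 ≤ ⌊x⌋₊ := by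
  have := Nat.lt_floor_add_one x
  linarith

lemma rngs {B T K K3 D C1 A : ℕ} {L P δ : ℝ} (hL : L = Real.log B) (hA : A = C1 + 2) (hL4 : 4 ≤ L) (hP1 : P ≤ L ^ A)
    (hP2 : L ^ A ≤ 2 * P) (hδ : 0 < δ) (h5 : 4 * Real.exp (1 / δ) ≤ L) (h6 : 8 * K3 * ((A : ℝ) + 1) ^ C1 ≤ L)
    (h7 : (2 : ℝ) ^ (D + 1) * L ^ (A * (D + 2)) ≤ T) (hT : B ≤ T ^ D) (hTK : T ≤ K3 * B) (hB2 : 2 ≤ B)
    (hKB : K + 1 ≤ B) :
    1 ≤ P ∧ B ≤ ⌊(B : ℝ) * P⌋₊ ∧ ((⌊(B : ℝ) * P⌋₊ : ℕ) : ℝ) ≤ B * P ∧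
    ⌊(B : ℝ) * P⌋₊ ≤ ⌊(T : ℝ) / P⌋₊ ^ (D + 1) ∧
    (⌊(T : ℝ) / P⌋₊ : ℝ) * Real.log (⌊(B : ℝ) * P⌋₊ : ℝ) ^ C1 ≤ ⌊(B : ℝ) * P⌋₊ ∧
    (L + 1 / δ) / (B * P) ≤ Real.log (⌊(B : ℝ) * P⌋₊ : ℝ) / ⌊(B : ℝ) * P⌋₊ ∧
    ⌊(K : ℝ) * B * P⌋₊ ≤ (K + 1) * ⌊(B : ℝ) * P⌋₊ := by
  have hL1 : 1 ≤ L := by linarith
  have hLA : L ≤ L ^ A := le_self_pow₀ hL1 (by omega)
  have hP : 2 ≤ P := by linarith
  have hP0 : 0 < P := by linarith
  have hBr : (2 : ℝ) ≤ B := by exact_mod_cast hB2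
  have hBP : (2 : ℝ) ≤ B * P := by nlinarith
  have hBP0 : (0 : ℝ) < B * P := by linarith
  obtain ⟨B', hB'⟩ : ∃ B', B' = ⌊(B : ℝ) * P⌋₊ := ⟨_, rfl⟩
  obtain ⟨T', hT'⟩ : ∃ T', T' = ⌊(T : ℝ) / P⌋₊ := ⟨_, rfl⟩
  rw [← hB', ← hT']
  have b1 : (B : ℝ) ≤ B * P := by nlinarith
  have b2 : (B' : ℝ) ≤ B * P := by rw [hB']; exact Nat.floor_le hBP0.le
  have b3 : (B : ℝ) * P / 2 ≤ B' := by rw [hB']; exact half_floor hBP
  have b4 : (B : ℝ) * P - 1 ≤ B' := by
    rw [hB']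
    have := Nat.lt_floor_add_one ((B : ℝ) * P)
    linarith
  have b5 : B ≤ B' := by rw [hB']; exact Nat.le_floor b1
  have hB'0 : (0 : ℝ) < B' := by
    have : (B : ℝ) ≤ B' := by exact_mod_cast b5
    linarith
  -- T
  have hPow : P ^ (D + 2) ≤ L ^ (A * (D + 2)) := by
    rw [pow_mul]
    exact pow_le_pow_left₀ hP0.le hP1 _
  have hT1 : (2 : ℝ) ^ (D + 1) * P ^ (D + 2) ≤ T := by
    refine le_trans ?_ h7
    exact mul_le_mul_of_nonneg_left hPow (by positivity)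
  have hT2 : 2 * P ≤ T := by
    refine le_trans ?_ hT1
    have e1 : (2 : ℝ) ≤ 2 ^ (D + 1) := le_self_pow₀ (by norm_num) (by omega)
    have e2 : P ≤ P ^ (D + 2) := le_self_pow₀ (by linarith) (by omega)
    exact mul_le_mul e1 e2 hP0.le (by positivity)
  have hT0 : (0 : ℝ) < T := by linarith
  have t1 : (T : ℝ) / (2 * P) ≤ T' := by
    rw [hT']
    have : (2 : ℝ) ≤ T / P := by rw [le_div_iff₀ hP0]; linarith
    have h := half_floor this
    rwa [div_div, mul_comm P 2] at h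
  have t2 : (T' : ℝ) ≤ T / P := by rw [hT']; exact Nat.floor_le (by positivity)
  have hTr : (B : ℝ) ≤ (T : ℝ) ^ D := by exact_mod_cast hT
  have hTKr : (T : ℝ) ≤ K3 * B := by exact_mod_cast hTK
  refine ⟨by linarith, b5, b2, ?_, ?_, ?_, ?_⟩
  · have h1 : (B' : ℝ) ≤ (T' : ℝ) ^ (D + 1) := by
      calc (B' : ℝ) ≤ B * P := b2
        _ ≤ (T : ℝ) ^ D * P := mul_le_mul_of_nonneg_right hTr hP0.le
        _ ≤ ((T : ℝ) / (2 * P)) ^ (D + 1) := by
            rw [div_pow, le_div_iff₀ (by positivity)]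
            calc (T : ℝ) ^ D * P * (2 * P) ^ (D + 1) = (T : ℝ) ^ D * (2 ^ (D + 1) * P ^ (D + 2)) := by
                  rw [mul_pow]; ring
              _ ≤ (T : ℝ) ^ D * T := mul_le_mul_of_nonneg_left hT1 (by positivity)
              _ = (T : ℝ) ^ (D + 1) := by ring
        _ ≤ (T' : ℝ) ^ (D + 1) := pow_le_pow_left₀ (by positivity) t1 _
    exact_mod_cast h1
  · have hlog0 : 0 ≤ Real.log (B' : ℝ) := Real.log_nonneg (by
      have : (B : ℝ) ≤ B' := by exact_mod_cast b5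
      linarith)
    have hlogL : Real.log L ≤ L := by
      have := Real.log_le_sub_one_of_pos (by linarith : 0 < L)
      linarith
    have hlog : Real.log (B' : ℝ) ≤ (A + 1) * L := by
      calc Real.log (B' : ℝ) ≤ Real.log (B * P) := Real.log_le_log hB'0 b2
        _ = L + Real.log P := by rw [Real.log_mul (by linarith) hP0.ne', ← hL]
        _ ≤ L + Real.log (L ^ A) := by
            have := Real.log_le_log hP0 hP1
            linarith
        _ = L + A * Real.log L := by rw [Real.log_pow]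
        _ ≤ L + A * L := by
            have : (A : ℝ) * Real.log L ≤ A * L := mul_le_mul_of_nonneg_left hlogL (Nat.cast_nonneg A)
            linarith
        _ = (A + 1) * L := by ring
    have h1 : Real.log (B' : ℝ) ^ C1 ≤ ((A : ℝ) + 1) ^ C1 * L ^ C1 := by
      rw [← mul_pow]
      exact pow_le_pow_left₀ hlog0 hlog _
    have h2 : 8 * K3 * (((A : ℝ) + 1) ^ C1 * L ^ C1) ≤ 4 * P ^ 2 := by
      calc 8 * K3 * (((A : ℝ) + 1) ^ C1 * L ^ C1) = 8 * K3 * ((A : ℝ) + 1) ^ C1 * L ^ C1 := by ring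
        _ ≤ L * L ^ C1 := mul_le_mul_of_nonneg_right h6 (by positivity)
        _ = L ^ (C1 + 1) := by ring
        _ ≤ L ^ (A * 2) := pow_le_pow_right₀ hL1 (by omega)
        _ = (L ^ A) ^ 2 := by rw [pow_mul]
        _ ≤ (2 * P) ^ 2 := pow_le_pow_left₀ (by positivity) hP2 2
        _ = 4 * P ^ 2 := by ring
    calc (T' : ℝ) * Real.log (B' : ℝ) ^ C1 ≤ (T / P) * (((A : ℝ) + 1) ^ C1 * L ^ C1) :=
          mul_le_mul t2 h1 (pow_nonneg hlog0 _) (by positivity)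
      _ ≤ (K3 * B / P) * (((A : ℝ) + 1) ^ C1 * L ^ C1) := by
          apply mul_le_mul_of_nonneg_right _ (by positivity)
          exact div_le_div_of_nonneg_right hTKr hP0.le
      _ = (K3 * (((A : ℝ) + 1) ^ C1 * L ^ C1)) * (B / P) := by ring
      _ ≤ (P ^ 2 / 2) * (B / P) := by
          apply mul_le_mul_of_nonneg_right _ (by positivity)
          linarith
      _ = B * P / 2 := by field_simp
      _ ≤ B' := b3
  · have h1 : L + 1 / δ ≤ Real.log (B' : ℝ) := by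
      have h2 : (B : ℝ) * Real.exp (1 / δ) ≤ B' := by
        refine le_trans ?_ b3
        have h3 : Real.exp (1 / δ) ≤ P / 2 := by linarith
        have h4 : (B : ℝ) * Real.exp (1 / δ) ≤ B * (P / 2) := mul_le_mul_of_nonneg_left h3 (by linarith)
        linarith
      have h3 := Real.log_le_log (by positivity) h2
      rw [Real.log_mul (by linarith) (Real.exp_pos _).ne', Real.log_exp, ← hL] at h3
      exact h3
    rw [div_le_div_iff₀ hBP0 hB'0]
    have h0 : 0 ≤ L + 1 / δ := by positivity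
    exact mul_le_mul h1 b2 hB'0.le (h0.trans h1)
  · have h1 : ((⌊(K : ℝ) * B * P⌋₊ : ℕ) : ℝ) ≤ ((K : ℝ) + 1) * B' := by
      refine (Nat.floor_le (by positivity)).trans ?_
      have hKr : (K : ℝ) + 1 ≤ B := by exact_mod_cast hKB
      have h2 : ((K : ℝ) + 1) * (B * P - 1) ≤ ((K : ℝ) + 1) * B' := mul_le_mul_of_nonneg_left b4 (by positivity)
      linarith
    exact_mod_cast h1

/-! ### the theorem -/

/-- **H4P.** Slowly varying weights, primes, `T ≤ K3 B`. -/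
theorem t_H4P (hSH : S_SH) (hB4 : ∀ c : ℤ, c ≠ 0 → S_B4P c) (hEEB : S_EEB)
    (hU0 : ∀ c : ℤ, c ≠ 0 → Pool.Agent.N728.QG.S_U0 c) (hU1 : ∀ c : ℤ, c ≠ 0 → Pool.Agent.N728.QG.S_U1 c)
    (hMER : S_MER) : ∀ c : ℤ, c ≠ 0 → S_H4P c := by
  classical
  have _hMER := hMER
  intro c hc
  obtain ⟨C1, Kb, hKb, hb4⟩ := hB4 c hc
  obtain ⟨κ', hκ', heeb⟩ := hEEB
  refine ⟨2 * Kb, by positivity, ?_⟩
  intro K K3 D q z ε hK hD hq hz2 hcz hε hPq hqz
  -- constants
  obtain ⟨CU0, hCU0, k0, BU0, hu0⟩ := hU0 c hc (8 * (D + 1)) (by omega)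
  obtain ⟨CU1, hCU1, k1, BU1, hu1⟩ := hU1 c hc (8 * (D + 1)) (by omega)
  obtain ⟨k, hk⟩ : ∃ k, k = max 2 (max k0 k1) := ⟨_, rfl⟩
  have hk2 : 2 ≤ k := by rw [hk]; exact le_max_left _ _
  have hkk0 : k0 ≤ k := by rw [hk]; exact (le_max_left _ _).trans (le_max_right _ _)
  have hkk1 : k1 ≤ k := by rw [hk]; exact (le_max_right _ _).trans (le_max_right _ _)
  have hkr : (2 : ℝ) ≤ k := by exact_mod_cast hk2
  have hκk : 0 < κ' * (k : ℝ) := by positivity
  have hmaxpos : 0 < max CU0 CU1 := lt_max_of_lt_left hCU0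
  obtain ⟨C0, hC0⟩ : ∃ C0, C0 = (κ' * (k : ℝ)) * (2 * max CU0 CU1) := ⟨_, rfl⟩
  have hC0pos : 0 < C0 := by rw [hC0]; positivity
  have hKr : (1 : ℝ) ≤ K := by exact_mod_cast hK
  have hqr : (1 : ℝ) ≤ q := by exact_mod_cast hq
  have hzr : (2 : ℝ) ≤ z := by exact_mod_cast hz2
  obtain ⟨δ, hδ⟩ : ∃ δ, δ = min (1 / 4) (ε / (40 * C0 * K)) := ⟨_, rfl⟩
  have hδ0 : 0 < δ := by rw [hδ]; exact lt_min (by norm_num) (by positivity)
  have hδ4 : δ ≤ 1 / 4 := by rw [hδ]; exact min_le_left _ _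
  have hδε : C0 * K * δ * 40 ≤ ε := by
    have h1 : δ ≤ ε / (40 * C0 * K) := by rw [hδ]; exact min_le_right _ _
    rw [le_div_iff₀ (by positivity)] at h1
    linarith
  obtain ⟨A, hA⟩ : ∃ A, A = C1 + 2 := ⟨_, rfl⟩
  obtain ⟨S0, hS0⟩ : ∃ S0 : ℕ, S0 = ⌈-Real.log δ⌉₊ := ⟨_, rfl⟩
  have hS0' : -Real.log δ ≤ (S0 : ℝ) := by rw [hS0]; exact Nat.le_ceil _
  obtain ⟨ρ, hρ1, hρ2, BS, hS⟩ := hSH C0 (ε / 16) k (D + 1) K 2 q A S0 hC0pos (by positivity) (by omega) hK hq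
  obtain ⟨B4, hB4'⟩ := hb4 (K + 1) (D + 1) q z (ε / 8) (by omega) (by omega) hq hz2 hcz (by positivity) hPq hqz
  obtain ⟨BE, hBE⟩ := heeb c k z hk2
  obtain ⟨V, hV⟩ : ∃ V, V = (VW 0 z)⁻¹ := ⟨_, rfl⟩
  have hV0 : 0 < V := by rw [hV]; exact inv_pos.2 (VW_pos 0 z)
  obtain ⟨κ4, hκ4⟩ : ∃ κ4, κ4 = Kb * ((K + 1 : ℕ) : ℝ) * (VW 0 z)⁻¹ / z := ⟨_, rfl⟩
  obtain ⟨κ, hκ⟩ : ∃ κ, κ = 2 * Kb * K * (VW 0 z)⁻¹ / z := ⟨_, rfl⟩
  have hκ40 : 0 ≤ κ4 := by rw [hκ4, ← hV]; positivity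
  have hκ0 : 0 ≤ κ := by rw [hκ, ← hV]; positivity
  have hκκ : κ4 ≤ κ := by
    rw [hκ4, hκ, ← hV]
    apply div_le_div_of_nonneg_right _ (by positivity)
    apply mul_le_mul_of_nonneg_right _ hV0.le
    push_cast
    nlinarith
  refine Filter.eventually_atTop.1 ?_
  filter_upwards [Filter.eventually_ge_atTop BS, Filter.eventually_ge_atTop B4, Filter.eventually_ge_atTop BE,
    Filter.eventually_ge_atTop BU0, Filter.eventually_ge_atTop BU1, Filter.eventually_ge_atTop (z ^ k),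
    Filter.eventually_ge_atTop 2, Filter.eventually_ge_atTop (K + 1), Filter.eventually_ge_atTop (K * K3),
    ev_log 4, ev_log (K + K / δ), ev_log (4 * Real.exp (1 / δ)), ev_log (8 * K3 * ((A : ℝ) + 1) ^ C1),
    ev_log (1 / δ ^ 2), ev_T (2 ^ (D + 1)) (A * (D + 2)) D (by positivity) hD,
    ev_T ((1 / δ) ^ (D + 1)) 0 D (by positivity) hD, ev_T (8 * κ4 / ε) A D (by positivity) hD,
    ev_T (8 * (4 + V) / (δ * ε)) (A + 1) D (by positivity) hD]
    with B bS b4 bE bU0 bU1 bz b2 bK bKK l1 l2 l3 l4 l5 t1 t2 t3 t4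
  intro T hT hTK
  replace t1 := t1 T hT
  replace t2 := t2 T hT
  replace t3 := t3 T hT
  replace t4 := t4 T hT
  rw [← hκ]
  obtain ⟨L, hL⟩ : ∃ L, L = Real.log (B : ℝ) := ⟨_, rfl⟩
  rw [← hL] at l1 l2 l3 l4 l5 t1 t2 t3 t4
  have hBr : (2 : ℝ) ≤ B := by exact_mod_cast b2
  have hB0 : (0 : ℝ) < B := by linarith
  have hL1 : 1 ≤ L := by linarith
  have hL0 : 0 < L := by linarith
  have hLB : L ≤ B := by
    rw [hL]
    have := Real.log_le_sub_one_of_pos hB0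
    linarith
  have hzB : z ≤ B := (Nat.le_self_pow (by omega) z).trans bz
  have hcB : c.natAbs ≤ B := hcz.trans hzB
  -- the root
  obtain ⟨z1, hz1a, hz1b⟩ := root_ex k B (by omega) (by omega)
  obtain ⟨hz12, hEW⟩ := hBE B bE z1 hz1a hz1b
  obtain ⟨E, hE⟩ : ∃ E : ℕ → ℝ, E = EP c z B := ⟨_, rfl⟩
  obtain ⟨W, hW⟩ : ∃ W : ℕ → ℝ, W = fun n : ℕ => (κ' * (k : ℝ)) * (lz z1 ((n : ℤ) + c) + lz z ((n : ℤ) + c)) :=
    ⟨_, rfl⟩
  have hEW' : ∀ n, |E n| ≤ W n := by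
    intro n
    rw [hE, hW]
    exact hEW n
  have hW0 : U0b C0 k B (8 * (D + 1)) W := by
    have a1 := hu0 B bU0 z1 hz12 ((Nat.pow_le_pow_right (by omega) hkk0).trans hz1a)
    have a2 := hu0 B bU0 z hz2 ((Nat.pow_le_pow_right (by omega) hkk0).trans bz)
    rw [hW, hC0]
    exact U0b_add hκk.le (U0b_mono (le_max_left _ _) hkk0 a1) (U0b_mono (le_max_left _ _) hkk0 a2)
  have hW1 : U1b C0 k B (8 * (D + 1)) W := by
    have a1 := hu1 B bU1 z1 hz12 ((Nat.pow_le_pow_right (by omega) hkk1).trans hz1a)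
    have a2 := hu1 B bU1 z hz2 ((Nat.pow_le_pow_right (by omega) hkk1).trans bz)
    rw [hW, hC0]
    exact U1b_add hκk.le (U1b_mono (le_max_right _ _) hkk1 a1) (U1b_mono (le_max_right _ _) hkk1 a2)
  -- the range of T
  have hTr : (B : ℝ) ≤ (T : ℝ) ^ D := by exact_mod_cast hT
  have hTKr : (T : ℝ) ≤ K3 * B := by exact_mod_cast hTK
  rw [pow_zero, mul_one] at t2
  have hδinv : 1 ≤ 1 / δ := by rw [le_div_iff₀ hδ0]; linarith
  have hT1 : 1 / δ ≤ T := le_trans (le_self_pow₀ hδinv (by omega)) t2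
  have hT0 : (0 : ℝ) < T := by linarith
  have hTn : 1 ≤ T := by exact_mod_cast hT0
  have hTB : T ≤ B ^ (D + 1) := by
    calc T ≤ K3 * B := hTK
      _ ≤ B * B := Nat.mul_le_mul_right B (by
          calc K3 ≤ K * K3 := Nat.le_mul_of_pos_left K3 (by omega)
            _ ≤ B := bKK)
      _ = B ^ 2 := by ring
      _ ≤ B ^ (D + 1) := Nat.pow_le_pow_right (by omega) (by omega)
  have hBD : ∀ x : ℕ, x ≤ B ^ (D + 1) → x ≤ B ^ (8 * (D + 1)) := fun x hx =>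
    hx.trans (Nat.pow_le_pow_right (by omega) (by omega))
  have hDD : ∀ x : ℕ, B ≤ x ^ (D + 1) → B ≤ x ^ (8 * (D + 1)) := by
    intro x hx
    have hx1 : 1 ≤ x := by
      by_contra hcon
      have : x = 0 := by omega
      rw [this, zero_pow (by omega)] at hx
      omega
    exact hx.trans (Nat.pow_le_pow_right hx1 (by omega))
  have hKBle : K * B ≤ B ^ (D + 1) := by
    calc K * B ≤ B * B := Nat.mul_le_mul_right B (by omega)
      _ = B ^ 2 := by ring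
      _ ≤ B ^ (D + 1) := Nat.pow_le_pow_right (by omega) (by omega)
  have hTT : B ≤ T ^ (D + 1) := hT.trans (Nat.pow_le_pow_right hTn (by omega))
  have hBB : B ≤ B ^ (D + 1) := Nat.le_self_pow (by omega) B
  -- U0
  obtain ⟨U0, hU0d⟩ : ∃ U0, U0 = ⌈δ * (T : ℝ)⌉₊ := ⟨_, rfl⟩
  have hU0a : δ * T ≤ U0 := by rw [hU0d]; exact Nat.le_ceil _
  have hδT : 1 ≤ δ * T := by
    rw [div_le_iff₀ hδ0] at hT1
    linarith
  have hU0b : (U0 : ℝ) ≤ 2 * (δ * T) := by
    rw [hU0d]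
    have := Nat.ceil_lt_add_one (by positivity : 0 ≤ δ * (T : ℝ))
    linarith
  have hU0T : U0 ≤ T := by
    rw [hU0d]
    apply Nat.ceil_le.2
    exact mul_le_of_le_one_left hT0.le (by linarith only [hδ4])
  have hUpow : ∀ U : ℕ, U0 ≤ U → B ≤ U ^ (D + 1) := by
    intro U hU
    have h1 : (B : ℝ) ≤ (U : ℝ) ^ (D + 1) := by
      have hUr : (U0 : ℝ) ≤ U := by exact_mod_cast hU
      calc (B : ℝ) ≤ (T : ℝ) ^ D := hTr
        _ = δ ^ (D + 1) * ((1 / δ) ^ (D + 1) * (T : ℝ) ^ D) := by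
            rw [one_div, inv_pow]
            field_simp
        _ ≤ δ ^ (D + 1) * (T * (T : ℝ) ^ D) := by
            apply mul_le_mul_of_nonneg_left _ (by positivity)
            exact mul_le_mul_of_nonneg_right t2 (by positivity)
        _ = (δ * T) ^ (D + 1) := by rw [mul_pow]; ring
        _ ≤ (U : ℝ) ^ (D + 1) := pow_le_pow_left₀ (by positivity) (hU0a.trans hUr) _
    exact_mod_cast h1
  -- box 1
  have hbox1 : ∑ u ∈ Ioc 0 U0, ∑ v ∈ Ioc 0 (K * B), |E (u * v)| ≤ ε / 8 * (B * T) := by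
    have h := box (by omega) hW0 hEW' (X1 := 0) (X2 := U0) (I1 := 0) (I2 := K * B) (Nat.zero_le _)
      (by rw [Nat.sub_zero]; exact hDD _ (hUpow U0 le_rfl)) (hBD _ (hU0T.trans hTB)) (Nat.zero_le _)
      (by
        rw [Nat.sub_zero]
        apply hDD
        exact hBB.trans (Nat.pow_le_pow_left (Nat.le_mul_of_pos_left B (by omega)) _)) (hBD _ hKBle)
    refine h.trans ?_
    push_cast
    rw [sub_zero, sub_zero]
    calc C0 * ((U0 : ℝ) * (K * B)) ≤ C0 * ((2 * (δ * T)) * (K * B)) := by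
          apply mul_le_mul_of_nonneg_left _ hC0pos.le
          exact mul_le_mul_of_nonneg_right hU0b (by positivity)
      _ = (C0 * K * δ * 2) * (B * T) := by ring
      _ ≤ ε / 8 * (B * T) := by
          apply mul_le_mul_of_nonneg_right _ (by positivity)
          linarith
  -- the function
  intro U1 U2 u0 v0 Gv hU12 hU2T hG1 hG2
  rw [← hL] at hG2
  rw [← hE]
  obtain ⟨Λ, hΛ⟩ : ∃ Λ, Λ = L / B + 1 / (δ * B) := ⟨_, rfl⟩
  have hδB : 0 < δ * B := by positivity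
  obtain ⟨h, hh1, hh2, hh3, hh4, hh5, hh6⟩ := cut_ex Gv (L / B) (δ * B) (K * B) (by positivity) hδB hG1 hG2
  rw [← hΛ] at hh2
  have hΛ0 : 0 ≤ Λ := by rw [hΛ]; positivity
  have hΛK : Λ * (K * B) = K * (L + 1 / δ) := by
    rw [hΛ]
    field_simp
  -- R
  have hLA1 : 1 ≤ L ^ A := one_le_pow₀ hL1
  obtain ⟨R, hR1, hR2⟩ := R_ex hρ1 hρ2 hLA1
  obtain ⟨P, hP⟩ : ∃ P, P = ρ ^ R := ⟨_, rfl⟩
  rw [← hP] at hR1 hR2
  obtain ⟨r0, r1, r2, r3, r4, r5, r6⟩ := rngs (K := K) hL hA l1 hR1 hR2 hδ0 l3 l4 t1 hT hTK b2 bK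
  have hP0 : 0 < P := by linarith
  obtain ⟨B', hB'⟩ : ∃ B', B' = ⌊(B : ℝ) * P⌋₊ := ⟨_, rfl⟩
  obtain ⟨T', hT'⟩ : ∃ T', T' = ⌊(T : ℝ) / P⌋₊ := ⟨_, rfl⟩
  obtain ⟨N, hN⟩ : ∃ N, N = ⌊(K : ℝ) * B * P⌋₊ := ⟨_, rfl⟩
  rw [← hB'] at r1 r2 r3 r4 r5 r6
  rw [← hT'] at r3 r4
  rw [← hN] at r6
  have hBr' : (B : ℝ) ≤ B' := by exact_mod_cast r1
  have hB'0 : (0 : ℝ) < B' := by linarith
  have hL'1 : 1 ≤ (K : ℝ) * (L + 1 / δ) := by
    have h1 : 1 ≤ L + 1 / δ := by linarith only [hL1, hδinv]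
    exact one_le_mul_of_one_le_of_one_le hKr h1
  -- the shift
  have hshift : ∀ U : ℕ, U0 ≤ U → U ≤ T →
      |∑ u ∈ (Icc 1 U).filter (fun u => u ≡ u0 [MOD q]), ∑ v ∈ (Icc 1 (K * B)).filter (fun v => v ≡ v0 [MOD q]),
          h v * E (u * v) -
        ∑ u ∈ (Icc 1 ⌊(U : ℝ) / P⌋₊).filter (fun u => u ≡ u0 [MOD q]),
          ∑ v ∈ (Icc 1 N).filter (fun v => v ≡ v0 [MOD q]), h (v / P) * E (u * v)| ≤ ε / 16 * ((B : ℝ) * T) := by
    intro U hU1 hU2
    have hs := hS B bS W E hEW' hW0 hW1 R U u0 v0 (fun s => h (Real.exp s)) (K * (L + 1 / δ))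
      (by rw [← hP, ← hL]; exact hR1) (hUpow U hU1) (hU2.trans hTB) hL'1
      (by
        rw [← hL]
        calc (K : ℝ) * (L + 1 / δ) ≤ (K + K / δ) * L := by
              have h1 : (K : ℝ) / δ ≤ K / δ * L := le_mul_of_one_le_right (by positivity) hL1
              have h2 : (K : ℝ) * (L + 1 / δ) = K * L + K / δ := by ring
              rw [h2, add_mul]
              linarith
          _ ≤ L * L := mul_le_mul_of_nonneg_right l2 hL0.le
          _ = L ^ 2 := by ring)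
      (fun s => (hh1 _).trans (by norm_num))
      (fun s s' => by
        have h1 := log_lip hΛ0 (by positivity : (0 : ℝ) < K * B) hh2 hh4 s s'
        rw [hΛK] at h1
        exact h1)
      (fun s hs => by
        by_contra hne
        apply hs
        constructor
        · have h1 : δ * B < Real.exp s := by
            by_contra hcon
            exact hne (hh3 _ (not_lt.1 hcon))
          have h2 := Real.log_lt_log hδB h1
          rw [Real.log_exp, Real.log_mul hδ0.ne' hB0.ne'] at h2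
          linarith
        · have h1 : Real.exp s < K * B := by
            by_contra hcon
            exact hne (hh4 _ (not_lt.1 hcon))
          have h2 := Real.log_lt_log (Real.exp_pos s) h1
          rw [Real.log_exp] at h2
          exact h2.le)
    rw [← hP, ← hN] at hs
    have e1 : ∑ u ∈ (Icc 1 U).filter (fun u => u ≡ u0 [MOD q]), ∑ v ∈ (Icc 1 (K * B)).filter (fun v => v ≡ v0 [MOD q]),
          h (Real.exp (Real.log v)) * E (u * v) =
        ∑ u ∈ (Icc 1 U).filter (fun u => u ≡ u0 [MOD q]), ∑ v ∈ (Icc 1 (K * B)).filter (fun v => v ≡ v0 [MOD q]),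
          h v * E (u * v) := by
      refine sum_congr rfl fun u _ => sum_congr rfl fun v hv => ?_
      rw [mem_filter, mem_Icc] at hv
      rw [Real.exp_log (by exact_mod_cast hv.1.1)]
    have e2 : ∑ u ∈ (Icc 1 ⌊(U : ℝ) / P⌋₊).filter (fun u => u ≡ u0 [MOD q]),
          ∑ v ∈ (Icc 1 N).filter (fun v => v ≡ v0 [MOD q]),
            h (Real.exp (Real.log v - R * Real.log ρ)) * E (u * v) =
        ∑ u ∈ (Icc 1 ⌊(U : ℝ) / P⌋₊).filter (fun u => u ≡ u0 [MOD q]),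
          ∑ v ∈ (Icc 1 N).filter (fun v => v ≡ v0 [MOD q]), h (v / P) * E (u * v) := by
      refine sum_congr rfl fun u _ => sum_congr rfl fun v hv => ?_
      rw [mem_filter, mem_Icc] at hv
      rw [Real.exp_sub, Real.exp_log (by exact_mod_cast hv.1.1), ← Real.log_pow, ← hP, Real.exp_log hP0]
    rw [e1, e2] at hs
    refine hs.trans ?_
    apply mul_le_mul_of_nonneg_left _ (by positivity)
    exact mul_le_mul_of_nonneg_left (by exact_mod_cast hU2) hB0.le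
  -- the main part
  have hmain : ∀ V1 V2 : ℕ, U0 ≤ V1 → V1 ≤ V2 → V2 ≤ T →
      |∑ u ∈ (Icc 1 ⌊(V2 : ℝ) / P⌋₊).filter (fun u => u ≡ u0 [MOD q]),
          ∑ v ∈ (Icc 1 N).filter (fun v => v ≡ v0 [MOD q]), h (v / P) * E (u * v) -
        ∑ u ∈ (Icc 1 ⌊(V1 : ℝ) / P⌋₊).filter (fun u => u ≡ u0 [MOD q]),
          ∑ v ∈ (Icc 1 N).filter (fun v => v ≡ v0 [MOD q]), h (v / P) * E (u * v)| ≤
      κ / (q : ℝ) ^ 2 * (B * ((V2 : ℝ) - V1)) + 3 * (ε / 8 * ((B : ℝ) * T)) := by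
    intro V1 V2 hV0' hV12 hV2T
    have hV12r : (V1 : ℝ) ≤ V2 := by exact_mod_cast hV12
    have hV2Tr : (V2 : ℝ) ≤ T := by exact_mod_cast hV2T
    have hf12 : ⌊(V1 : ℝ) / P⌋₊ ≤ ⌊(V2 : ℝ) / P⌋₊ :=
      Nat.floor_le_floor (div_le_div_of_nonneg_right hV12r hP0.le)
    have hf2T : ⌊(V2 : ℝ) / P⌋₊ ≤ T' := by
      rw [hT']
      exact Nat.floor_le_floor (div_le_div_of_nonneg_right hV2Tr hP0.le)
    rw [shift_eq hf12 r6 (fun v hv => hh4 _ (by
      rw [le_div_iff₀ hP0]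
      rw [hN] at hv
      exact (Nat.lt_of_floor_lt hv).le))]
    -- B4P
    have h4 := hB4' B' (b4.trans r1) T' r3 r4 ⌊(V1 : ℝ) / P⌋₊ ⌊(V2 : ℝ) / P⌋₊ u0 v0 (fun v => h (v / P)) hf12 hf2T
      (fun v => hh1 _) (fun v => by
        refine le_trans (hh2 _ _) (le_trans (le_of_eq ?_) r5)
        rw [hΛ]
        push_cast
        rw [show ((v : ℝ) + 1) / P - v / P = 1 / P by ring, abs_of_pos (by positivity : 0 < 1 / P)]
        field_simp)
    rw [← hκ4] at h4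
    -- the difference
    have h5 := EP_diff (U1 := ⌊(V1 : ℝ) / P⌋₊) (U2 := ⌊(V2 : ℝ) / P⌋₊) (N := (K + 1) * B') (u0 := u0) (v0 := v0)
      (q := q) (z := z) (KB := K * B) b2 hcB r1 hP0 hδ0 r2 hh1 hh3 hh4 (by
        have h6 : (⌊(V2 : ℝ) / P⌋₊ : ℝ) ≤ V2 / P := Nat.floor_le (by positivity)
        have h7 : (K : ℝ) * K3 ≤ B := by exact_mod_cast bKK
        calc (⌊(V2 : ℝ) / P⌋₊ : ℝ) * (K * B * P) ≤ (V2 / P) * (K * B * P) :=
              mul_le_mul_of_nonneg_right h6 (by positivity)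
          _ = V2 * (K * B) := by field_simp
          _ ≤ (K3 * B) * (K * B) := mul_le_mul_of_nonneg_right (hV2Tr.trans hTKr) (by positivity)
          _ = (K * K3) * B ^ 2 := by ring
          _ ≤ B * B ^ 2 := mul_le_mul_of_nonneg_right h7 (by positivity)
          _ = (B : ℝ) ^ 3 := by ring)
    rw [← hE, ← hL, ← hV] at h5
    have h6 : 1 / δ * B' * (4 * L + V) ≤ ε / 8 * (B * T) := by
      have h7 : (4 * L + V) ≤ (4 + V) * L := by
        have : V ≤ V * L := le_mul_of_one_le_right hV0.le hL1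
        linarith only [this]
      calc 1 / δ * B' * (4 * L + V) ≤ 1 / δ * (B * P) * ((4 + V) * L) := by
            apply mul_le_mul _ h7 (by positivity) (by positivity)
            exact mul_le_mul_of_nonneg_left r2 (by positivity)
        _ ≤ 1 / δ * (B * L ^ A) * ((4 + V) * L) := by
            apply mul_le_mul_of_nonneg_right _ (by positivity)
            apply mul_le_mul_of_nonneg_left _ (by positivity)
            exact mul_le_mul_of_nonneg_left hR1 hB0.le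
        _ = (ε / 8 * B) * (8 * (4 + V) / (δ * ε) * L ^ (A + 1)) := by
            rw [pow_succ]
            field_simp
        _ ≤ (ε / 8 * B) * T := mul_le_mul_of_nonneg_left t4 (by positivity)
        _ = ε / 8 * (B * T) := by ring
    have h7 : κ4 / (q : ℝ) ^ 2 * (B' * (((⌊(V2 : ℝ) / P⌋₊ : ℕ) : ℝ) - ((⌊(V1 : ℝ) / P⌋₊ : ℕ) : ℝ))) ≤
        κ / (q : ℝ) ^ 2 * (B * ((V2 : ℝ) - V1)) + ε / 8 * (B * T) := by
      have g1 : ((⌊(V2 : ℝ) / P⌋₊ : ℕ) : ℝ) ≤ V2 / P := Nat.floor_le (by positivity)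
      have g2 : (V1 : ℝ) / P < ((⌊(V1 : ℝ) / P⌋₊ : ℕ) : ℝ) + 1 := Nat.lt_floor_add_one _
      have g3 : ((⌊(V2 : ℝ) / P⌋₊ : ℕ) : ℝ) - ((⌊(V1 : ℝ) / P⌋₊ : ℕ) : ℝ) ≤ (V2 - V1) / P + 1 := by
        rw [sub_div]
        linarith only [g1, g2]
      have g0 : 0 ≤ ((V2 : ℝ) - V1) / P + 1 := by
        have : 0 ≤ ((V2 : ℝ) - V1) / P := div_nonneg (by linarith only [hV12r]) hP0.le
        linarith only [this]
      have g4 : (B' : ℝ) * (((⌊(V2 : ℝ) / P⌋₊ : ℕ) : ℝ) - ((⌊(V1 : ℝ) / P⌋₊ : ℕ) : ℝ)) ≤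
          B * (V2 - V1) + B * P := by
        calc (B' : ℝ) * (((⌊(V2 : ℝ) / P⌋₊ : ℕ) : ℝ) - ((⌊(V1 : ℝ) / P⌋₊ : ℕ) : ℝ)) ≤
              B' * ((V2 - V1) / P + 1) := mul_le_mul_of_nonneg_left g3 hB'0.le
          _ ≤ (B * P) * ((V2 - V1) / P + 1) := mul_le_mul_of_nonneg_right r2 g0
          _ = B * (V2 - V1) + B * P := by field_simp
      have g5 : κ4 / (q : ℝ) ^ 2 ≤ κ4 := div_le_self hκ40 (one_le_pow₀ hqr)
      have g6 : κ4 / (q : ℝ) ^ 2 ≤ κ / (q : ℝ) ^ 2 := div_le_div_of_nonneg_right hκκ (by positivity)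
      have g7 : 0 ≤ (B : ℝ) * (V2 - V1) := mul_nonneg hB0.le (by linarith only [hV12r])
      calc κ4 / (q : ℝ) ^ 2 * (B' * (((⌊(V2 : ℝ) / P⌋₊ : ℕ) : ℝ) - ((⌊(V1 : ℝ) / P⌋₊ : ℕ) : ℝ))) ≤
            κ4 / (q : ℝ) ^ 2 * (B * (V2 - V1) + B * P) := mul_le_mul_of_nonneg_left g4 (by positivity)
        _ = κ4 / (q : ℝ) ^ 2 * (B * (V2 - V1)) + κ4 / (q : ℝ) ^ 2 * (B * P) := by ring
        _ ≤ κ / (q : ℝ) ^ 2 * (B * (V2 - V1)) + κ4 * (B * L ^ A) := by
            apply add_le_add (mul_le_mul_of_nonneg_right g6 g7)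
            exact mul_le_mul g5 (mul_le_mul_of_nonneg_left hR1 hB0.le) (by positivity) hκ40
        _ = κ / (q : ℝ) ^ 2 * (B * (V2 - V1)) + (ε / 8 * B) * (8 * κ4 / ε * L ^ A) := by
            field_simp
        _ ≤ κ / (q : ℝ) ^ 2 * (B * (V2 - V1)) + (ε / 8 * B) * T := by
            have := mul_le_mul_of_nonneg_left t3 (by positivity : 0 ≤ ε / 8 * (B : ℝ))
            linarith only [this]
        _ = _ := by ring
    have h8 : ε / 8 * ((B' : ℝ) * T') ≤ ε / 8 * (B * T) := by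
      apply mul_le_mul_of_nonneg_left _ (by positivity)
      have g1 : (T' : ℝ) ≤ T / P := by rw [hT']; exact Nat.floor_le (by positivity)
      calc (B' : ℝ) * T' ≤ (B * P) * (T / P) := mul_le_mul r2 g1 (Nat.cast_nonneg _) (by positivity)
        _ = B * T := by field_simp
    rw [abs_le] at h4 h5 ⊢
    constructor <;> linarith only [h4.1, h4.2, h5.1, h5.2, h6, h7, h8]
  -- the cut boxes
  have hδ2B : 1 / δ ^ 2 ≤ B := l5.trans hLB
  have hδBsq : (B : ℝ) ≤ (δ * B) ^ 2 := by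
    rw [div_le_iff₀ (by positivity)] at hδ2B
    calc (B : ℝ) = 1 * B := by ring
      _ ≤ (B * δ ^ 2) * B := mul_le_mul_of_nonneg_right hδ2B hB0.le
      _ = (δ * B) ^ 2 := by ring
  have hδB1 : 1 ≤ δ * B := by
    have h1 : 1 ≤ (δ * B) ^ 2 := by linarith only [hδBsq, hBr]
    by_contra hcon
    have h2 : (δ * B) ^ 2 < 1 := pow_lt_one₀ hδB.le (not_le.1 hcon) (by norm_num)
    linarith only [h1, h2]
  obtain ⟨a, ha⟩ : ∃ a, a = ⌈2 * (δ * (B : ℝ))⌉₊ := ⟨_, rfl⟩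
  obtain ⟨b, hb⟩ : ∃ b, b = ⌈δ * (B : ℝ)⌉₊ := ⟨_, rfl⟩
  have ha1 : 2 * (δ * B) ≤ a := by rw [ha]; exact Nat.le_ceil _
  have hb1 : δ * B ≤ b := by rw [hb]; exact Nat.le_ceil _
  have ha2 : (a : ℝ) ≤ 3 * (δ * B) := by
    rw [ha]
    have := Nat.ceil_lt_add_one (by positivity : 0 ≤ 2 * (δ * (B : ℝ)))
    linarith only [this, hδB1]
  have hb2 : (b : ℝ) ≤ 2 * (δ * B) := by
    rw [hb]
    have := Nat.ceil_lt_add_one (by positivity : 0 ≤ δ * (B : ℝ))
    linarith only [this, hδB1]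
  have hδB4 : δ * B ≤ 1 / 4 * B := mul_le_mul_of_nonneg_right hδ4 hB0.le
  have haB : a ≤ B := by
    have : (a : ℝ) ≤ B := by linarith only [ha2, hδB4, hB0]
    exact_mod_cast this
  have hbB : b ≤ B := by
    have : (b : ℝ) ≤ B := by linarith only [hb2, hδB4, hB0]
    exact_mod_cast this
  have hBKB : B ≤ K * B := Nat.le_mul_of_pos_left B (by omega)
  have hpowB : ∀ x : ℕ, δ * B ≤ x → B ≤ x ^ (8 * (D + 1)) := by
    intro x hx
    have hx1 : 1 ≤ x := by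
      have : (1 : ℝ) ≤ x := hδB1.trans hx
      exact_mod_cast this
    have h1 : (B : ℝ) ≤ (x : ℝ) ^ 2 := hδBsq.trans (pow_le_pow_left₀ hδB.le hx 2)
    have h2 : B ≤ x ^ 2 := by exact_mod_cast h1
    exact h2.trans (Nat.pow_le_pow_right hx1 (by omega))
  have hbox2 : ∑ u ∈ Ioc 0 T, ∑ v ∈ Ioc 0 a, |E (u * v)| ≤ C0 * (T * a) := by
    have h := box (by omega) hW0 hEW' (X1 := 0) (X2 := T) (I1 := 0) (I2 := a) (Nat.zero_le _)
      (by rw [Nat.sub_zero]; exact hDD _ hTT) (hBD _ hTB) (Nat.zero_le _)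
      (by rw [Nat.sub_zero]; exact hpowB a (by linarith only [ha1, hδB])) (hBD _ (haB.trans hBB))
    push_cast at h
    rw [sub_zero, sub_zero] at h
    exact h
  have hbox3 : ∑ u ∈ Ioc 0 T, ∑ v ∈ Ioc (K * B - b) (K * B), |E (u * v)| ≤ C0 * (T * b) := by
    have h := box (by omega) hW0 hEW' (X1 := 0) (X2 := T) (I1 := K * B - b) (I2 := K * B) (Nat.zero_le _)
      (by rw [Nat.sub_zero]; exact hDD _ hTT) (hBD _ hTB) (Nat.sub_le _ _)
      (by rw [Nat.sub_sub_self (hbB.trans hBKB)]; exact hpowB b hb1) (hBD _ hKBle)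
    rw [Nat.cast_sub (hbB.trans hBKB)] at h
    push_cast at h
    rw [sub_zero, sub_sub_cancel] at h
    exact h
  have hcut : ∀ V1 V2 : ℕ, V2 ≤ T →
      |∑ u ∈ (Ioc V1 V2).filter (fun u => u ≡ u0 [MOD q]), ∑ v ∈ (Icc 1 (K * B)).filter (fun v => v ≡ v0 [MOD q]),
        (Gv v - h v) * E (u * v)| ≤ ε / 8 * (B * T) := by
    intro V1 V2 hV2T
    have h1 := cut_err (E := E) (ψ := fun v : ℕ => Gv v - h v) (S1 := (Ioc V1 V2).filter (fun u => u ≡ u0 [MOD q]))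
      (T1 := Ioc 0 T) (S2 := (Icc 1 (K * B)).filter (fun v => v ≡ v0 [MOD q])) (Ioc 0 a) (Ioc (K * B - b) (K * B))
      (by
        intro x hx
        rw [mem_filter, mem_Ioc] at hx
        rw [mem_Ioc]
        omega) hh5 (by
        intro v hv hI hJ
        rw [mem_filter, mem_Icc] at hv
        rw [mem_Ioc] at hI hJ
        show Gv v - h v = 0
        rw [hh6 v, sub_self]
        · have h2 : a < v := by omega
          have h3 : (a : ℝ) < v := by exact_mod_cast h2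
          linarith only [h3, ha1]
        · have h2 : v + b ≤ K * B := by omega
          have h3 : (v : ℝ) + b ≤ K * B := by exact_mod_cast h2
          linarith only [h3, hb1])
    refine h1.trans ((add_le_add hbox2 hbox3).trans ?_)
    calc C0 * ((T : ℝ) * a) + C0 * (T * b) = C0 * (T * (a + b)) := by ring
      _ ≤ C0 * (T * (5 * (δ * B))) := by
          apply mul_le_mul_of_nonneg_left _ hC0pos.le
          apply mul_le_mul_of_nonneg_left _ hT0.le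
          linarith only [ha2, hb2]
      _ = (C0 * 1 * δ * 5) * (B * T) := by ring
      _ ≤ (C0 * K * δ * 5) * (B * T) := by
          apply mul_le_mul_of_nonneg_right _ (by positivity)
          apply mul_le_mul_of_nonneg_right _ (by norm_num)
          apply mul_le_mul_of_nonneg_right _ hδ0.le
          exact mul_le_mul_of_nonneg_left hKr hC0pos.le
      _ ≤ ε / 8 * (B * T) := by
          apply mul_le_mul_of_nonneg_right _ (by positivity)
          linarith only [hδε]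
  -- large V1
  have hcore : ∀ V1 V2 : ℕ, U0 ≤ V1 → V1 ≤ V2 → V2 ≤ T →
      |∑ u ∈ (Ioc V1 V2).filter (fun u => u ≡ u0 [MOD q]), ∑ v ∈ (Icc 1 (K * B)).filter (fun v => v ≡ v0 [MOD q]),
        Gv v * E (u * v)| ≤ κ / (q : ℝ) ^ 2 * (B * ((V2 : ℝ) - V1)) + 5 * (ε / 8 * (B * T)) := by
    intro V1 V2 hV0' hV12 hV2T
    have e1 : ∑ u ∈ (Ioc V1 V2).filter (fun u => u ≡ u0 [MOD q]),
        ∑ v ∈ (Icc 1 (K * B)).filter (fun v => v ≡ v0 [MOD q]), Gv v * E (u * v) =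
        ∑ u ∈ (Ioc V1 V2).filter (fun u => u ≡ u0 [MOD q]),
          ∑ v ∈ (Icc 1 (K * B)).filter (fun v => v ≡ v0 [MOD q]), (Gv v - h v) * E (u * v) +
        (∑ u ∈ (Icc 1 V2).filter (fun u => u ≡ u0 [MOD q]),
          ∑ v ∈ (Icc 1 (K * B)).filter (fun v => v ≡ v0 [MOD q]), h v * E (u * v) -
        ∑ u ∈ (Icc 1 V1).filter (fun u => u ≡ u0 [MOD q]),
          ∑ v ∈ (Icc 1 (K * B)).filter (fun v => v ≡ v0 [MOD q]), h v * E (u * v)) := by
      rw [← sum_Ioc_filter (fun u => u ≡ u0 [MOD q])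
        (fun u => ∑ v ∈ (Icc 1 (K * B)).filter (fun v => v ≡ v0 [MOD q]), h v * E (u * v)) hV12, ← sum_add_distrib]
      refine sum_congr rfl fun u _ => ?_
      rw [← sum_add_distrib]
      refine sum_congr rfl fun v _ => ?_
      ring
    rw [e1]
    have a1 := hcut V1 V2 hV2T
    have a2 := hshift V2 (hV0'.trans hV12) hV2T
    have a3 := hshift V1 hV0' (hV12.trans hV2T)
    have a4 := hmain V1 V2 hV0' hV12 hV2T
    rw [abs_le] at a1 a2 a3 a4 ⊢
    constructor <;> linarith only [a1.1, a1.2, a2.1, a2.2, a3.1, a3.2, a4.1, a4.2]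
  -- the end
  have hBT0 : 0 ≤ ε * ((B : ℝ) * T) := by positivity
  rcases le_total U2 U0 with hU | hU
  · have h1 := part_bd (E := E) (φ := Gv) (S1 := (Ioc U1 U2).filter (fun u => u ≡ u0 [MOD q]))
      (S2 := (Icc 1 (K * B)).filter (fun v => v ≡ v0 [MOD q])) (T1 := Ioc 0 U0) (T2 := Ioc 0 (K * B))
      (by
        intro x hx
        rw [mem_filter, mem_Ioc] at hx
        rw [mem_Ioc]
        omega)
      (by
        intro x hx
        rw [mem_filter, mem_Icc] at hx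
        rw [mem_Ioc]
        omega) hG1
    refine (h1.trans hbox1).trans ?_
    have h2 : 0 ≤ κ / (q : ℝ) ^ 2 * (B * ((U2 : ℝ) - U1)) := by
      have : (U1 : ℝ) ≤ U2 := by exact_mod_cast hU12
      exact mul_nonneg (by positivity) (mul_nonneg hB0.le (by linarith only [this]))
    linarith only [h2, hBT0]
  · obtain ⟨U3, hU3⟩ : ∃ U3, U3 = max U1 U0 := ⟨_, rfl⟩
    have c1 : U1 ≤ U3 := by rw [hU3]; exact le_max_left _ _
    have c2 : U0 ≤ U3 := by rw [hU3]; exact le_max_right _ _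
    have c3 : U3 ≤ U2 := by rw [hU3]; exact max_le hU12 hU
    have e1 : ∑ u ∈ (Ioc U1 U2).filter (fun u => u ≡ u0 [MOD q]),
        ∑ v ∈ (Icc 1 (K * B)).filter (fun v => v ≡ v0 [MOD q]), Gv v * E (u * v) =
        ∑ u ∈ (Ioc U1 U3).filter (fun u => u ≡ u0 [MOD q]),
          ∑ v ∈ (Icc 1 (K * B)).filter (fun v => v ≡ v0 [MOD q]), Gv v * E (u * v) +
        ∑ u ∈ (Ioc U3 U2).filter (fun u => u ≡ u0 [MOD q]),
          ∑ v ∈ (Icc 1 (K * B)).filter (fun v => v ≡ v0 [MOD q]), Gv v * E (u * v) := by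
      rw [sum_filter, sum_filter, sum_filter, sum_Ioc_consecutive _ c1 c3]
    rw [e1]
    have a1 := part_bd (E := E) (φ := Gv) (S1 := (Ioc U1 U3).filter (fun u => u ≡ u0 [MOD q]))
      (S2 := (Icc 1 (K * B)).filter (fun v => v ≡ v0 [MOD q])) (T1 := Ioc 0 U0) (T2 := Ioc 0 (K * B))
      (by
        intro x hx
        rw [mem_filter, mem_Ioc, hU3] at hx
        rw [mem_Ioc]
        rcases le_max_iff.1 hx.1.2 with h1 | h1 <;> omega)
      (by
        intro x hx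
        rw [mem_filter, mem_Icc] at hx
        rw [mem_Ioc]
        omega) hG1
    have a2 := a1.trans hbox1
    have a3 := hcore U3 U2 c2 c3 hU2T
    have a4 : κ / (q : ℝ) ^ 2 * (B * ((U2 : ℝ) - U3)) ≤ κ / (q : ℝ) ^ 2 * (B * ((U2 : ℝ) - U1)) := by
      have : (U1 : ℝ) ≤ U3 := by exact_mod_cast c1
      apply mul_le_mul_of_nonneg_left _ (by positivity)
      apply mul_le_mul_of_nonneg_left _ hB0.le
      linarith only [this]
    rw [abs_le] at a2 a3 ⊢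
    constructor <;> linarith only [a2.1, a2.2, a3.1, a3.2, a4, hBT0]

end

end Pool.Agent.N568.QH
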